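import Pool.Agent.H83.K4.Tower

/-! # The graph of a sum-free subgroup: spectrum and cliques -/

set_option autoImplicit false
set_option linter.unusedSectionVars false

namespace Pool.Agent.H83.K4

open Finset
open scoped Classical

variable {F : Type} [Field F]

def pp : Option F → F
  | none => 0
  | some _ => 1

def qq : Option F → F
  | none => 1
  | some t => t

/-- The determinant of the standard representatives of two points of the projective line
(characteristic 2). -/
def dd (t s : Option F) : F := pp t * qq s + qq t * pp s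

theorem dd_comm (t s : Option F) : dd t s = dd s t := by
  unfold dd; ring

theorem dd_self [CharP F 2] (t : Option F) : dd t t = 0 := by
  have h2 : (2 : F) = 0 := two_eq_zero'
  unfold dd
  linear_combination (pp t * qq t) * h2

theorem dd_ne [CharP F 2] {t s : Option F} (h : t ≠ s) : dd t s ≠ 0 := by
  have h2 : (2 : F) = 0 := two_eq_zero'
  unfold dd
  rcases t with _ | t <;> rcases s with _ | s
  · exact absurd rfl h
  · simp [pp, qq]
  · simp [pp, qq]
  · simp only [pp, qq, one_mul, mul_one]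
    intro h0
    apply h
    congr 1
    linear_combination h0 - s * h2

theorem plucker [CharP F 2] (a b c d : Option F) :
    dd a b * dd c d + dd a c * dd b d + dd a d * dd b c = 0 := by
  have h2 : (2 : F) = 0 := two_eq_zero'
  unfold dd
  linear_combination (pp a * qq b * pp c * qq d + pp a * pp b * qq c * qq d + qq a * qq b * pp c * pp d
    + qq a * pp b * qq c * pp d + pp a * qq c * qq b * pp d + qq a * pp c * pp b * qq d) * h2

/-- The determinant as a unit. -/
noncomputable def du [CharP F 2] (t s : Option F) (h : t ≠ s) : Fˣ := Units.mk0 (dd t s) (dd_ne h)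

variable (H : Subgroup Fˣ)

/-- The vertices: points of the projective line with a class modulo `H`. -/
abbrev X : Type := Option F × (Fˣ ⧸ H)

/-- Adjacency: the determinant of the vectors lies in `H`. -/
def adj (x z : X H) : Prop := ∃ u : Fˣ, (u : F) = dd x.1 z.1 ∧ x.2 * z.2 * (u : Fˣ ⧸ H) = 1

noncomputable def A (x z : X H) : ℝ := if adj H x z then 1 else 0

variable {H}

theorem adj_comm (x z : X H) : adj H x z ↔ adj H z x := by
  unfold adj
  rw [dd_comm, mul_comm x.2]

theorem A_comm (x z : X H) : A H x z = A H z x := by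
  unfold A
  rw [adj_comm]

theorem adj_iff [CharP F 2] {x z : X H} (h : x.1 ≠ z.1) :
    adj H x z ↔ x.2 = (z.2 * (du x.1 z.1 h : Fˣ ⧸ H))⁻¹ := by
  unfold adj
  constructor
  · rintro ⟨u, hu, hx⟩
    have : u = du x.1 z.1 h := Units.ext hu
    rw [← this]
    rw [mul_assoc] at hx
    exact eq_inv_of_mul_eq_one_left hx
  · intro hx
    refine ⟨du x.1 z.1 h, rfl, ?_⟩
    rw [hx, mul_assoc, inv_mul_cancel]

theorem adj_fst_ne [CharP F 2] {x z : X H} (h : adj H x z) : x.1 ≠ z.1 := by
  obtain ⟨u, hu, -⟩ := h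
  intro h0
  rw [h0, dd_self] at hu
  exact u.ne_zero hu

/-- No `K_4`. -/
theorem no_K4 [CharP F 2] (hSF : SF H) (x : Fin 4 → X H)
    (hx : ∀ i j, i ≠ j → adj H (x i) (x j)) : False := by
  choose g hg using fun i => QuotientGroup.mk_surjective (x i).2
  have key : ∀ i j, i ≠ j → ∃ h ∈ H, (h : F) = (g i : F) * (g j : F) * dd (x i).1 (x j).1 := by
    intro i j hij
    obtain ⟨u, hu, hx⟩ := hx i j hij
    refine ⟨g i * g j * u, ?_, ?_⟩
    · rw [← hg i, ← hg j] at hx
      exact (QuotientGroup.eq_one_iff _).1 hx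
    · rw [← hu]; push_cast; rfl
  obtain ⟨h01, m01, e01⟩ := key 0 1 (by decide)
  obtain ⟨h23, m23, e23⟩ := key 2 3 (by decide)
  obtain ⟨h02, m02, e02⟩ := key 0 2 (by decide)
  obtain ⟨h13, m13, e13⟩ := key 1 3 (by decide)
  obtain ⟨h03, m03, e03⟩ := key 0 3 (by decide)
  obtain ⟨h12, m12, e12⟩ := key 1 2 (by decide)
  apply hSF _ (H.mul_mem m01 m23) _ (H.mul_mem m02 m13) _ (H.mul_mem m03 m12)
  push_cast
  rw [e01, e23, e02, e13, e03, e12]
  have := plucker (x 0).1 (x 1).1 (x 2).1 (x 3).1
  linear_combination ((g 0 : F) * g 1 * g 2 * g 3) * this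

section
variable [Fintype F] [CharP F 2]

theorem card_option_ne (t : Option F) :
    (univ.filter fun s : Option F => s ≠ t).card = Fintype.card F := by
  rw [filter_ne' univ t, card_erase_of_mem (mem_univ t), card_univ, Fintype.card_option]
  rfl

theorem sum_A_fst (t : Option F) (z : X H) :
    ∑ g : Fˣ ⧸ H, A H (t, g) z = if t ≠ z.1 then 1 else 0 := by
  by_cases h : t = z.1
  · rw [if_neg (not_not.2 h)]
    apply sum_eq_zero
    intro g _
    unfold A
    rw [if_neg]
    intro h1
    exact adj_fst_ne h1 h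
  · rw [if_pos h]
    have : ∀ g : Fˣ ⧸ H, A H (t, g) z = if g = (z.2 * (du t z.1 h : Fˣ ⧸ H))⁻¹ then 1 else 0 := by
      intro g
      unfold A
      exact if_congr (adj_iff (x := (t, g)) (z := z) h) rfl rfl
    rw [sum_congr rfl fun g _ => this g, sum_ite_eq' univ]
    simp

/-- Regularity. -/
theorem sum_A (z : X H) : ∑ x : X H, A H x z = Fintype.card F := by
  rw [Fintype.sum_prod_type, sum_congr rfl fun t _ => sum_A_fst t z, ← sum_filter, sum_const,
    card_option_ne, nsmul_eq_mul, mul_one]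

theorem sum_AA_fst (t : Option F) (x z : X H) :
    ∑ g : Fˣ ⧸ H, A H (t, g) x * A H (t, g) z =
      if h : t ≠ x.1 ∧ t ≠ z.1 then
        (if x.2 * (du t x.1 h.1 : Fˣ ⧸ H) = z.2 * (du t z.1 h.2 : Fˣ ⧸ H) then 1 else 0) else 0 := by
  by_cases h : t ≠ x.1 ∧ t ≠ z.1
  · rw [dif_pos h]
    have h1 : ∀ g : Fˣ ⧸ H, A H (t, g) x = if g = (x.2 * (du t x.1 h.1 : Fˣ ⧸ H))⁻¹ then 1 else 0 := by
      intro g
      unfold A
      exact if_congr (adj_iff (x := (t, g)) (z := x) h.1) rfl rfl
    have h2 : ∀ g : Fˣ ⧸ H, A H (t, g) z = if g = (z.2 * (du t z.1 h.2 : Fˣ ⧸ H))⁻¹ then 1 else 0 := by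
      intro g
      unfold A
      exact if_congr (adj_iff (x := (t, g)) (z := z) h.2) rfl rfl
    rw [sum_congr rfl fun g _ => by rw [h1 g, h2 g]]
    rw [sum_congr rfl fun g _ => ite_mul _ _ _ _]
    simp only [one_mul, zero_mul]
    rw [sum_ite_eq' univ]
    simp only [mem_univ, if_true, inv_inj]
  · rw [dif_neg h]
    apply sum_eq_zero
    intro g _
    rw [not_and_or, not_not, not_not] at h
    rcases h with h | h
    · have : A H (t, g) x = 0 := by
        unfold A
        rw [if_neg]
        intro h1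
        exact adj_fst_ne h1 h
      rw [this, zero_mul]
    · have : A H (t, g) z = 0 := by
        unfold A
        rw [if_neg]
        intro h1
        exact adj_fst_ne h1 h
      rw [this, mul_zero]

/-- The ratio of the determinants is a bijection. -/
theorem ratio_bij {r s : Option F} (hrs : r ≠ s) :
    Function.Bijective (fun t : {t : Option F // t ≠ r ∧ t ≠ s} =>
      du t.1 r t.2.1 * (du t.1 s t.2.2)⁻¹) := by
  rw [Fintype.bijective_iff_injective_and_card]
  constructor
  · intro t t' htt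
    have h1 : du t.1 r t.2.1 * du t'.1 s t'.2.2 = du t'.1 r t'.2.1 * du t.1 s t.2.2 := by
      have := htt
      simp only at this
      rw [mul_inv_eq_iff_eq_mul, mul_assoc, mul_comm (du t'.1 s t'.2.2)⁻¹, ← mul_assoc,
        eq_mul_inv_iff_mul_eq] at this
      exact this
    have h2 : dd t.1 r * dd t'.1 s = dd t'.1 r * dd t.1 s := by
      have := congrArg (fun z : Fˣ => (z : F)) h1
      simpa [du] using this
    have h3 := plucker t.1 t'.1 r s
    have h4 : (2 : F) = 0 := two_eq_zero'
    have h5 : dd t.1 t'.1 * dd r s = 0 := by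
      rw [dd_comm t'.1 s, dd_comm t'.1 r] at *
      linear_combination h3 + h2 - (dd t.1 r * dd s t'.1) * h4
    rcases mul_eq_zero.1 h5 with h6 | h6
    · by_contra hne
      exact dd_ne (fun h => hne (Subtype.ext h)) h6
    · exact absurd h6 (dd_ne hrs)
  · have h1 : Fintype.card {t : Option F // t ≠ r ∧ t ≠ s} =
        (univ.filter fun t : Option F => t ≠ r ∧ t ≠ s).card := by
      rw [Fintype.card_subtype]
    have h2 : (univ.filter fun t : Option F => t ≠ r ∧ t ≠ s) = (univ.erase r).erase s := by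
      ext t
      simp only [mem_filter, mem_univ, true_and, mem_erase, ne_eq, and_true]
      tauto
    rw [h1, h2, card_erase_of_mem (by simp [hrs.symm]), card_erase_of_mem (mem_univ r), card_univ,
      Fintype.card_option, Fintype.card_units]
    omega

theorem card_class (c : Fˣ ⧸ H) :
    (univ.filter fun u : Fˣ => (u : Fˣ ⧸ H) = c).card = Nat.card H := by
  obtain ⟨v, rfl⟩ := QuotientGroup.mk_surjective c
  rw [Nat.card_eq_fintype_card]
  rw [← Fintype.card_coe]
  symm
  refine Fintype.card_congr ⟨fun h => ⟨v * h, ?_⟩, fun u => ⟨v⁻¹ * u.1, ?_⟩, ?_, ?_⟩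
  · rw [mem_filter]
    refine ⟨mem_univ _, ?_⟩
    rw [QuotientGroup.mk_mul_of_mem v h.2]
  · have := (mem_filter.1 u.2).2
    exact QuotientGroup.eq.1 this.symm
  · intro h
    apply Subtype.ext
    simp
  · intro u
    apply Subtype.ext
    simp

/-- The entries of the square of the adjacency matrix. -/
theorem AA (x z : X H) : ∑ w : X H, A H w x * A H w z =
    if x.1 = z.1 then (if x = z then (Fintype.card F : ℝ) else 0) else (Nat.card H : ℝ) := by
  rw [Fintype.sum_prod_type, sum_congr rfl fun t _ => sum_AA_fst t x z]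
  by_cases h : x.1 = z.1
  · rw [if_pos h]
    have h1 : ∀ t : Option F, (if h : t ≠ x.1 ∧ t ≠ z.1 then
        (if x.2 * (du t x.1 h.1 : Fˣ ⧸ H) = z.2 * (du t z.1 h.2 : Fˣ ⧸ H) then (1 : ℝ) else 0)
          else 0) = if t ≠ x.1 then (if x = z then 1 else 0) else 0 := by
      intro t
      by_cases ht : t = x.1
      · rw [dif_neg (fun h' => h'.1 ht), if_neg (not_not.2 ht)]
      · have ht' : t ≠ z.1 := h ▸ ht
        rw [dif_pos ⟨ht, ht'⟩, if_pos ht]
        have : du t x.1 ht = du t z.1 ht' := by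
          apply Units.ext
          show dd t x.1 = dd t z.1
          rw [h]
        congr 1
        rw [this, mul_left_inj, eq_iff_iff]
        constructor
        · intro h2
          exact Prod.ext h h2
        · intro h2
          rw [h2]
    rw [sum_congr rfl fun t _ => h1 t, ← sum_filter, sum_const, card_option_ne, nsmul_eq_mul]
    split_ifs <;> simp
  · rw [if_neg h]
    have h1 : ∑ t : Option F, (if h : t ≠ x.1 ∧ t ≠ z.1 then
        (if x.2 * (du t x.1 h.1 : Fˣ ⧸ H) = z.2 * (du t z.1 h.2 : Fˣ ⧸ H) then (1 : ℝ) else 0)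
          else 0) = ∑ t : {t : Option F // t ≠ x.1 ∧ t ≠ z.1},
          (if ((du t.1 x.1 t.2.1 * (du t.1 z.1 t.2.2)⁻¹ : Fˣ) : Fˣ ⧸ H) = z.2 * x.2⁻¹ then (1 : ℝ) else 0) := by
      rw [← Finset.sum_filter_add_sum_filter_not univ (fun t : Option F => t ≠ x.1 ∧ t ≠ z.1)]
      have hz : ∑ t ∈ univ.filter (fun t : Option F => ¬ (t ≠ x.1 ∧ t ≠ z.1)),
          (if h : t ≠ x.1 ∧ t ≠ z.1 then
            (if x.2 * (du t x.1 h.1 : Fˣ ⧸ H) = z.2 * (du t z.1 h.2 : Fˣ ⧸ H) then (1 : ℝ) else 0)
              else 0) = 0 := by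
        apply sum_eq_zero
        intro t ht
        rw [dif_neg (mem_filter.1 ht).2]
      rw [hz, add_zero, Finset.sum_subtype (p := fun t : Option F => t ≠ x.1 ∧ t ≠ z.1) _
        (fun t => by simp)]
      apply sum_congr rfl
      intro t _
      rw [dif_pos t.2]
      have e : (x.2 * (du t.1 x.1 t.2.1 : Fˣ ⧸ H) = z.2 * (du t.1 z.1 t.2.2 : Fˣ ⧸ H)) ↔
          (((du t.1 x.1 t.2.1 * (du t.1 z.1 t.2.2)⁻¹ : Fˣ) : Fˣ ⧸ H) = z.2 * x.2⁻¹) := by
        rw [QuotientGroup.mk_mul, QuotientGroup.mk_inv]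
        constructor
        · intro h5
          rw [mul_inv_eq_iff_eq_mul, mul_assoc, mul_comm x.2⁻¹, ← mul_assoc,
            eq_mul_inv_iff_mul_eq, mul_comm _ x.2]
          exact h5
        · intro h5
          rw [mul_inv_eq_iff_eq_mul, mul_assoc, mul_comm x.2⁻¹, ← mul_assoc,
            eq_mul_inv_iff_mul_eq, mul_comm _ x.2] at h5
          exact h5
      simp only [e]
    rw [h1]
    have h2 := (ratio_bij h).sum_comp (fun u : Fˣ => if (u : Fˣ ⧸ H) = z.2 * x.2⁻¹ then (1 : ℝ) else 0)
    rw [h2, ← sum_filter, sum_const, card_class, nsmul_eq_mul, mul_one]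

end

end Pool.Agent.H83.K4
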