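import Pool.Agent.H83.K4.Graph

/-! # The least eigenvalue of the graph of a sum-free subgroup -/

set_option autoImplicit false
set_option linter.unusedSectionVars false

namespace Pool.Agent.H83.K4

open Finset
open scoped Classical

variable {F : Type} [Field F] [Fintype F] [CharP F 2] {H : Subgroup Fˣ}

theorem AA' (x z : X H) : ∑ w : X H, A H w x * A H w z =
    (Fintype.card F : ℝ) * (if x = z then 1 else 0)
      + (Nat.card H : ℝ) * (1 - if x.1 = z.1 then 1 else 0) := by
  rw [AA]
  by_cases h : x.1 = z.1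
  · rw [if_pos h, if_pos h]
    split_ifs <;> ring
  · rw [if_neg h, if_neg h, if_neg (fun e : x = z => h (congrArg Prod.fst e))]
    ring

theorem normAy (y : X H → ℝ) : ∑ w : X H, (∑ x, A H w x * y x) ^ 2 =
    (Fintype.card F : ℝ) * ∑ x, y x ^ 2 +
      (Nat.card H : ℝ) * ((∑ x, y x) ^ 2 - ∑ r : Option F, (∑ g : Fˣ ⧸ H, y (r, g)) ^ 2) := by
  have h1 : ∀ w : X H, (∑ x, A H w x * y x) ^ 2 =
      ∑ x, ∑ z, y x * y z * (A H w x * A H w z) := by
    intro w
    rw [sq, sum_mul_sum]
    refine sum_congr rfl fun x _ => sum_congr rfl fun z _ => ?_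
    ring
  rw [sum_congr rfl fun w _ => h1 w, sum_comm]
  have h2 : ∀ x : X H, ∑ w : X H, ∑ z, y x * y z * (A H w x * A H w z) =
      ∑ z, (((Fintype.card F : ℝ) * (if x = z then y x * y z else 0)
        + (Nat.card H : ℝ) * (y x * y z) - (Nat.card H : ℝ) * (if x.1 = z.1 then y x * y z else 0))) := by
    intro x
    rw [sum_comm]
    refine sum_congr rfl fun z _ => ?_
    rw [← mul_sum, AA']
    split_ifs <;> ring
  rw [sum_congr rfl fun x _ => h2 x]
  have h3 : ∀ x : X H, ∑ z, (((Fintype.card F : ℝ) * (if x = z then y x * y z else 0)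
        + (Nat.card H : ℝ) * (y x * y z) - (Nat.card H : ℝ) * (if x.1 = z.1 then y x * y z else 0)))
      = (Fintype.card F : ℝ) * y x ^ 2 + (Nat.card H : ℝ) * (y x * ∑ z, y z)
        - (Nat.card H : ℝ) * (y x * ∑ g : Fˣ ⧸ H, y (x.1, g)) := by
    intro x
    rw [sum_sub_distrib, sum_add_distrib, ← mul_sum, ← mul_sum, ← mul_sum, sum_ite_eq,
      if_pos (mem_univ x), ← mul_sum, ← sq]
    congr 2
    rw [Fintype.sum_prod_type]
    have h4 : ∀ r : Option F, ∑ g : Fˣ ⧸ H, (if x.1 = (r, g).1 then y x * y (r, g) else 0) =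
        if x.1 = r then y x * ∑ g : Fˣ ⧸ H, y (r, g) else 0 := by
      intro r
      by_cases h : x.1 = r
      · rw [if_pos h, mul_sum]
        exact sum_congr rfl fun g _ => if_pos h
      · rw [if_neg h]
        exact sum_eq_zero fun g _ => if_neg h
    rw [sum_congr rfl fun r _ => h4 r, sum_ite_eq, if_pos (mem_univ _)]
  rw [sum_congr rfl fun x _ => h3 x, sum_sub_distrib, sum_add_distrib, ← mul_sum, ← mul_sum,
    ← mul_sum, ← sum_mul, ← sq]
  have h5 : ∑ x : X H, y x * ∑ g : Fˣ ⧸ H, y (x.1, g) =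
      ∑ r : Option F, (∑ g : Fˣ ⧸ H, y (r, g)) ^ 2 := by
    rw [Fintype.sum_prod_type]
    refine sum_congr rfl fun r _ => ?_
    rw [sq, sum_mul]
  rw [h5]
  ring

theorem quad_ge_of_sum_zero (y : X H → ℝ) (hy : ∑ x, y x = 0) :
    -(√(Fintype.card F : ℝ)) * ∑ x, y x ^ 2 ≤ ∑ x, y x * ∑ z, A H x z * y z := by
  set s := √(Fintype.card F : ℝ) with hs
  have hQ : (0 : ℝ) < Fintype.card F := by exact_mod_cast Fintype.card_pos
  have hs0 : 0 < s := Real.sqrt_pos.2 hQ
  have hs2 : s ^ 2 = Fintype.card F := Real.sq_sqrt hQ.le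
  have h1 : 0 ≤ ∑ x, ((∑ z, A H x z * y z) + s * y x) ^ 2 := sum_nonneg fun x _ => sq_nonneg _
  have h2 : ∑ x, ((∑ z, A H x z * y z) + s * y x) ^ 2 =
      ∑ x, (∑ z, A H x z * y z) ^ 2 + 2 * s * (∑ x, y x * ∑ z, A H x z * y z)
        + s ^ 2 * ∑ x, y x ^ 2 := by
    rw [mul_sum, mul_sum, ← sum_add_distrib, ← sum_add_distrib]
    refine sum_congr rfl fun x _ => ?_
    ring
  have h3 := normAy y
  rw [hy] at h3
  have h4 : 0 ≤ ∑ r : Option F, (∑ g : Fˣ ⧸ H, y (r, g)) ^ 2 := sum_nonneg fun x _ => sq_nonneg _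
  have h5 : (0 : ℝ) ≤ Nat.card H := Nat.cast_nonneg _
  have h6 : ∑ x, (∑ z, A H x z * y z) ^ 2 ≤ s ^ 2 * ∑ x, y x ^ 2 := by
    rw [h3, hs2]
    nlinarith [mul_nonneg h5 h4]
  have h7 : 0 ≤ 2 * s * ((∑ x, y x * ∑ z, A H x z * y z) + s * ∑ x, y x ^ 2) := by
    rw [h2] at h1
    linarith
  have h8 := nonneg_of_mul_nonneg_right h7 (by positivity)
  linarith

theorem quad_ge (y : X H → ℝ) :
    -(√(Fintype.card F : ℝ)) * ∑ x, y x ^ 2 ≤ ∑ x, y x * ∑ z, A H x z * y z := by
  set s := √(Fintype.card F : ℝ) with hs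
  have hQ : (0 : ℝ) < Fintype.card F := by exact_mod_cast Fintype.card_pos
  have hs0 : 0 < s := Real.sqrt_pos.2 hQ
  have hN : (0 : ℝ) < Fintype.card (X H) := by exact_mod_cast Fintype.card_pos
  set c : ℝ := (∑ x, y x) / Fintype.card (X H) with hc
  have hc' : c * Fintype.card (X H) = ∑ x, y x := by rw [hc]; field_simp
  set u : X H → ℝ := fun x => y x - c with hu
  have hu0 : ∑ x, u x = 0 := by
    rw [hu, sum_sub_distrib, sum_const, card_univ, nsmul_eq_mul, ← hc']
    ring
  have h1 := quad_ge_of_sum_zero u hu0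
  have hyu : ∀ x, y x = u x + c := fun x => by rw [hu]; ring
  have hrow : ∀ x : X H, ∑ z, A H x z = Fintype.card F := by
    intro x
    rw [← sum_A x]
    exact sum_congr rfl fun z _ => A_comm x z
  have h2 : ∀ x, ∑ z, A H x z * y z = (∑ z, A H x z * u z) + c * Fintype.card F := by
    intro x
    rw [← hrow x, mul_sum, ← sum_add_distrib]
    refine sum_congr rfl fun z _ => ?_
    rw [hyu z]; ring
  have h3 : ∑ x, y x * ∑ z, A H x z * y z = (∑ x, u x * ∑ z, A H x z * u z)
      + c ^ 2 * Fintype.card F * Fintype.card (X H) := by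
    have h4 : ∀ x, y x * ∑ z, A H x z * y z = u x * (∑ z, A H x z * u z)
        + c * Fintype.card F * u x + c * (∑ z, A H x z * u z) + c ^ 2 * Fintype.card F := by
      intro x
      rw [h2 x, hyu x]; ring
    rw [sum_congr rfl fun x _ => h4 x, sum_add_distrib, sum_add_distrib, sum_add_distrib,
      ← mul_sum, hu0, ← mul_sum, sum_comm]
    have h5 : ∀ z, ∑ x, A H x z * u z = Fintype.card F * u z := by
      intro z
      rw [← sum_mul, sum_A]
    rw [sum_congr rfl fun z _ => h5 z, ← mul_sum, hu0, sum_const, card_univ, nsmul_eq_mul]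
    ring
  have h6 : ∑ x, y x ^ 2 = ∑ x, u x ^ 2 + c ^ 2 * Fintype.card (X H) := by
    have h7 : ∀ x, y x ^ 2 = u x ^ 2 + 2 * c * u x + c ^ 2 := by
      intro x
      rw [hyu x]; ring
    rw [sum_congr rfl fun x _ => h7 x, sum_add_distrib, sum_add_distrib, ← mul_sum, hu0, sum_const,
      card_univ, nsmul_eq_mul]
    ring
  rw [h3, h6]
  have h8 : 0 ≤ c ^ 2 * Fintype.card F * Fintype.card (X H) := by positivity
  have h9 : 0 ≤ s * (c ^ 2 * Fintype.card (X H)) := by positivity
  linarith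

/-- The feasible matrix. -/
noncomputable def BB (H : Subgroup Fˣ) : Matrix (X H) (X H) ℝ :=
  fun x z => (A H x z + if x = z then √(Fintype.card F : ℝ) else 0) /
    (Fintype.card (X H) * √(Fintype.card F : ℝ))

theorem BB_psd : (BB H).PosSemidef := by
  refine Matrix.PosSemidef.of_dotProduct_mulVec_nonneg ?_ ?_
  · ext x z
    rw [Matrix.conjTranspose_apply]
    unfold BB
    rw [star_trivial, A_comm]
    congr 2
    exact if_congr eq_comm rfl rfl
  · intro y
    have hQ : (0 : ℝ) < Fintype.card F := by exact_mod_cast Fintype.card_pos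
    have hs0 : 0 < √(Fintype.card F : ℝ) := Real.sqrt_pos.2 hQ
    have hN : (0 : ℝ) < Fintype.card (X H) := by exact_mod_cast Fintype.card_pos
    have h1 := quad_ge y
    have h2 : star y ⬝ᵥ (BB H).mulVec y = ((∑ x, y x * ∑ z, A H x z * y z) +
        √(Fintype.card F : ℝ) * ∑ x, y x ^ 2) / (Fintype.card (X H) * √(Fintype.card F : ℝ)) := by
      rw [star_trivial, mul_sum, ← sum_add_distrib, sum_div]
      unfold dotProduct Matrix.mulVec
      refine sum_congr rfl fun x _ => ?_
      have h3 : (fun j => BB H x j) ⬝ᵥ y = ((∑ z, A H x z * y z) + √(Fintype.card F : ℝ) * y x) /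
          (Fintype.card (X H) * √(Fintype.card F : ℝ)) := by
        unfold dotProduct BB
        have h4 : ∀ z, (A H x z + if x = z then √(Fintype.card F : ℝ) else 0) /
            (Fintype.card (X H) * √(Fintype.card F : ℝ)) * y z =
            (A H x z * y z + if x = z then √(Fintype.card F : ℝ) * y z else 0) /
            (Fintype.card (X H) * √(Fintype.card F : ℝ)) := by
          intro z
          split_ifs <;> ring
        rw [sum_congr rfl fun z _ => h4 z, ← sum_div, sum_add_distrib, sum_ite_eq,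
          if_pos (mem_univ x)]
      rw [h3]
      ring
    rw [h2]
    apply div_nonneg _ (by positivity)
    linarith

theorem A_self (x : X H) : A H x x = 0 := by
  unfold A
  rw [if_neg]
  intro h
  exact adj_fst_ne h rfl

theorem BB_trace : (BB H).trace = 1 := by
  have hQ : (0 : ℝ) < Fintype.card F := by exact_mod_cast Fintype.card_pos
  have hs0 : 0 < √(Fintype.card F : ℝ) := Real.sqrt_pos.2 hQ
  have hN : (0 : ℝ) < Fintype.card (X H) := by exact_mod_cast Fintype.card_pos
  rw [Matrix.trace]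
  have : ∀ x : X H, (BB H).diag x = √(Fintype.card F : ℝ) /
      (Fintype.card (X H) * √(Fintype.card F : ℝ)) := by
    intro x
    rw [Matrix.diag_apply]
    unfold BB
    rw [A_self, if_pos rfl, zero_add]
  rw [sum_congr rfl fun x _ => this x, sum_const, card_univ, nsmul_eq_mul]
  field_simp

theorem BB_sum : ∑ x, ∑ z, BB H x z = 1 + √(Fintype.card F : ℝ) := by
  have hQ : (0 : ℝ) < Fintype.card F := by exact_mod_cast Fintype.card_pos
  have hs0 : 0 < √(Fintype.card F : ℝ) := Real.sqrt_pos.2 hQ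
  have hs2 : √(Fintype.card F : ℝ) ^ 2 = Fintype.card F := Real.sq_sqrt hQ.le
  have hN : (0 : ℝ) < Fintype.card (X H) := by exact_mod_cast Fintype.card_pos
  have hrow : ∀ x : X H, ∑ z, A H x z = Fintype.card F := by
    intro x
    rw [← sum_A x]
    exact sum_congr rfl fun z _ => A_comm x z
  have : ∀ x : X H, ∑ z, BB H x z = (Fintype.card F + √(Fintype.card F : ℝ)) /
      (Fintype.card (X H) * √(Fintype.card F : ℝ)) := by
    intro x
    unfold BB
    rw [← sum_div, sum_add_distrib, hrow, sum_ite_eq, if_pos (mem_univ x)]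
  rw [sum_congr rfl fun x _ => this x, sum_const, card_univ, nsmul_eq_mul]
  have h1 : (Fintype.card F : ℝ) + √(Fintype.card F : ℝ) =
      √(Fintype.card F : ℝ) * (1 + √(Fintype.card F : ℝ)) := by
    nlinarith
  rw [h1]
  field_simp

/-- The graph. -/
def GG (H : Subgroup Fˣ) : SimpleGraph (X H) where
  Adj x z := adj H x z
  symm := ⟨fun _ _ h => (adj_comm _ _).1 h⟩
  loopless := ⟨fun _ h => adj_fst_ne h rfl⟩

theorem GG_free (hSF : SF H) : (GG H).CliqueFree 4 := by
  intro s hs
  have hs2 := hs.card_eq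
  let e : Fin 4 ≃ s := (s.equivFin.trans (finCongr hs2)).symm
  apply no_K4 hSF (fun i => (e i : X H))
  intro i j hij
  have := hs.isClique (x := (e i : X H)) (by exact_mod_cast (e i).2) (y := (e j : X H))
    (by exact_mod_cast (e j).2) (fun h => hij (e.injective (Subtype.ext h)))
  exact this

theorem BB_zero (x z : X H) (h : x ≠ z) (h1 : ¬ (GG H).Adj x z) : BB H x z = 0 := by
  have h2 : ¬ adj H x z := h1
  unfold BB A
  rw [if_neg h2, if_neg h]
  simp

theorem card_X : Fintype.card (X H) * Nat.card H = (Fintype.card F + 1) * (Fintype.card F - 1) := by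
  rw [Fintype.card_prod, Fintype.card_option, mul_assoc]
  congr 1
  have h1 := H.card_eq_card_quotient_mul_card_subgroup
  rw [Nat.card_units, Nat.card_eq_fintype_card, Nat.card_eq_fintype_card (α := Fˣ ⧸ H)] at h1
  exact h1.symm

end Pool.Agent.H83.K4
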