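import Mathlib

/-! # Sum-free multiplicative subgroups of finite fields of characteristic 2 (towers) -/

set_option autoImplicit false

namespace Pool.Agent.H83.K4

variable {F : Type} [Field F]

/-- No three elements of `H` have sum zero. -/
def SF (H : Subgroup Fˣ) : Prop :=
  ∀ a ∈ H, ∀ b ∈ H, ∀ c ∈ H, (a : F) + (b : F) + (c : F) ≠ 0

/-- The units with `u ^ d = 1`. -/
def mu (F : Type) [Field F] (d : ℕ) : Subgroup Fˣ := (powMonoidHom d : Fˣ →* Fˣ).ker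

theorem mem_mu {d : ℕ} {u : Fˣ} : u ∈ mu F d ↔ u ^ d = 1 := by
  rw [mu, MonoidHom.mem_ker]; rfl

/-- The towers of subgroups. -/
def HH (F : Type) [Field F] (a : ℕ) : ℕ → Subgroup Fˣ
  | 0 => ⊥
  | (i + 1) => mu F (2 ^ (2 * (a * 4 ^ i)) + 1) ⊔ HH F a i

theorem two_eq_zero' [CharP F 2] : (2 : F) = 0 := by
  have := CharP.cast_eq_zero F 2
  exact_mod_cast this

theorem pow_four {s : ℕ} {H : Subgroup Fˣ} (hH : ∀ h ∈ H, h ^ (2 ^ s) = h) :
    ∀ x ∈ mu F (2 ^ (2 * s) + 1) ⊔ H, x ^ (2 ^ (4 * s)) = x := by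
  intro x hx
  obtain ⟨u, hu, h, hh, rfl⟩ := Subgroup.mem_sup.1 hx
  rw [mem_mu] at hu
  have h4 : (2 : ℕ) ^ (4 * s) = 2 ^ (2 * s) * 2 ^ (2 * s) := by rw [← pow_add]; congr 1; ring
  have hu1 : u ^ (2 ^ (2 * s)) = u⁻¹ := by
    rw [pow_succ] at hu
    exact eq_inv_of_mul_eq_one_left hu
  have hu2 : u ^ (2 ^ (4 * s)) = u := by
    rw [h4, pow_mul, hu1, inv_pow, hu1, inv_inv]
  have hh1 : h ^ (2 ^ (2 * s)) = h := by
    have : (2 : ℕ) ^ (2 * s) = 2 ^ s * 2 ^ s := by rw [← pow_add]; congr 1; ring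
    rw [this, pow_mul, hH h hh, hH h hh]
  have hh2 : h ^ (2 ^ (4 * s)) = h := by
    rw [h4, pow_mul, hh1, hh1]
  rw [mul_pow, hu2, hh2]

theorem SF_step [CharP F 2] {s : ℕ} {H : Subgroup Fˣ} (hH : ∀ h ∈ H, h ^ (2 ^ s) = h) (hSF : SF H) :
    SF (mu F (2 ^ (2 * s) + 1) ⊔ H) := by
  intro a ha b hb c hc habc
  have hb4 := pow_four hH b hb
  have key : ∀ x ∈ mu F (2 ^ (2 * s) + 1) ⊔ H, ∃ h ∈ H, (x : F) ^ (2 ^ (2 * s)) * x = (h : F) ^ 2 := by
    intro x hx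
    obtain ⟨u, hu, h, hh, rfl⟩ := Subgroup.mem_sup.1 hx
    rw [mem_mu] at hu
    refine ⟨h, hh, ?_⟩
    have hh1 : h ^ (2 ^ (2 * s)) = h := by
      have : (2 : ℕ) ^ (2 * s) = 2 ^ s * 2 ^ s := by rw [← pow_add]; congr 1; ring
      rw [this, pow_mul, hH h hh, hH h hh]
    have : (u * h) ^ (2 ^ (2 * s)) * (u * h) = h ^ 2 := by
      calc (u * h) ^ (2 ^ (2 * s)) * (u * h) = (u ^ (2 ^ (2 * s) + 1)) * (h ^ (2 ^ (2 * s)) * h) := by
            rw [mul_pow, pow_succ]; ring_nf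
            rw [mul_comm]
            ac_rfl
        _ = h ^ 2 := by rw [hu, hh1, one_mul, sq]
    have := congrArg (fun z : Fˣ => (z : F)) this
    simpa using this
  obtain ⟨h1, hh1, e1⟩ := key a ha
  obtain ⟨h2, hh2, e2⟩ := key b hb
  obtain ⟨h3, hh3, e3⟩ := key c hc
  have h2' : (2 : F) = 0 := two_eq_zero'
  have fix : ∀ h ∈ H, (h : F) ^ (2 ^ s) = h := by
    intro h hh
    have := congrArg (fun z : Fˣ => (z : F)) (hH h hh)
    simpa using this
  set A : F := (a : F) with hA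
  set B : F := (b : F) with hBd
  set C : F := (c : F) with hCd
  have hadd : ∀ (m : ℕ) (x y : F), (x + y) ^ (2 ^ m) = x ^ (2 ^ m) + y ^ (2 ^ m) := fun m x y =>
    add_pow_char_pow x y 2 m
  have hC : C = A + B := by linear_combination habc - (A + B) * h2'
  have hB4 : (B ^ (2 ^ (2 * s))) ^ (2 ^ (2 * s)) = B := by
    rw [← pow_mul, ← pow_add]
    have := congrArg (fun z : Fˣ => (z : F)) hb4
    have h5 : 2 * s + 2 * s = 4 * s := by ring
    rw [h5]
    simpa using this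
  set X : F := A * B ^ (2 ^ (2 * s)) with hX
  set Y : F := A ^ (2 ^ (2 * s)) * B with hY
  set t : F := (h1 : F) ^ 2 + (h2 : F) ^ 2 + (h3 : F) ^ 2 with ht
  have hXY : X + Y = t := by
    have e3' : (A ^ (2 ^ (2 * s)) + B ^ (2 ^ (2 * s))) * (A + B) = (h3 : F) ^ 2 := by
      rw [← hadd, ← hC]; exact e3
    linear_combination e3' - e1 - e2 + (-(h1 : F)^2 - (h2 : F)^2) * h2'
  have hXr : X ^ (2 ^ (2 * s)) = Y := by
    rw [hX, hY, mul_pow, hB4]
  have htr : t ^ (2 ^ s) = t := by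
    rw [ht, hadd, hadd, ← pow_mul, ← pow_mul, ← pow_mul, mul_comm 2, pow_mul, pow_mul, pow_mul,
      fix h1 hh1, fix h2 hh2, fix h3 hh3]
  have hn : X * Y = ((h1 : F) * h2) ^ 2 := by
    rw [mul_pow, ← e1, ← e2, hX, hY]; ring
  have hnr : (X * Y) ^ (2 ^ s) = X * Y := by
    rw [hn, ← pow_mul, mul_comm 2, pow_mul, mul_pow, fix h1 hh1, fix h2 hh2]
  have hq : X ^ 2 + t * X + X * Y = 0 := by
    rw [← hXY]; linear_combination (X ^ 2 + X * Y) * h2'
  set Z : F := X ^ (2 ^ s) with hZ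
  have hqZ : Z ^ 2 + t * Z + X * Y = 0 := by
    have e : (X ^ 2 + t * X + X * Y) ^ (2 ^ s) = Z ^ 2 + t * Z + X * Y := by
      rw [hadd, hadd, hnr, mul_pow t X, htr, ← pow_mul X 2, mul_comm 2, pow_mul X]
    rw [hq, zero_pow (by positivity)] at e
    exact e.symm
  have hprod : (X - Z) * (X + Z + t) = 0 := by linear_combination hq - hqZ
  have h22 : (2 : ℕ) ^ (2 * s) = 2 ^ s * 2 ^ s := by rw [← pow_add]; congr 1; ring
  have hXX : Y = X := by
    rw [← hXr, h22, pow_mul, ← hZ]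
    rcases mul_eq_zero.1 hprod with h | h
    · rw [← sub_eq_zero.1 h]
      rw [← sub_eq_zero.1 h] at hZ
      exact hZ.symm
    · have hZ' : Z = X + t := by linear_combination h - (X + t) * h2'
      rw [hZ', hadd, htr, ← hZ, hZ']
      linear_combination t * h2'
  have ht0 : t = 0 := by
    rw [← hXY, hXX]; linear_combination X * h2'
  have hsq : ((h1 : F) + h2 + h3) ^ 2 = 0 := by
    have : ((h1 : F) + h2 + h3) ^ 2 = t := by
      rw [ht]; linear_combination ((h1 : F) * h2 + (h1 : F) * h3 + (h2 : F) * h3) * h2'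
    rw [this, ht0]
  exact hSF h1 hh1 h2 hh2 h3 hh3 (pow_eq_zero_iff (two_ne_zero)|>.1 hsq)

theorem HH_fix (a : ℕ) : ∀ i, ∀ h ∈ HH F a i, h ^ (2 ^ (a * 4 ^ i)) = h := by
  intro i
  induction i with
  | zero =>
    intro h hh
    rw [HH, Subgroup.mem_bot] at hh
    rw [hh, one_pow]
  | succ i ih =>
    intro h hh
    have := pow_four ih h hh
    rwa [show 4 * (a * 4 ^ i) = a * 4 ^ (i + 1) by ring] at this

theorem HH_SF [CharP F 2] (a : ℕ) : ∀ i, SF (HH F a i) := by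
  intro i
  induction i with
  | zero =>
    intro x hx y hy z hz h
    rw [HH, Subgroup.mem_bot] at hx hy hz
    rw [hx, hy, hz, Units.val_one] at h
    have h2 : (2 : F) = 0 := two_eq_zero'
    have : (1 : F) = 0 := by linear_combination h - h2
    exact one_ne_zero this
  | succ i ih => exact SF_step (HH_fix a i) ih

theorem mu_inf [CharP F 2] {s : ℕ} {H : Subgroup Fˣ} (hH : ∀ h ∈ H, h ^ (2 ^ s) = h) :
    mu F (2 ^ (2 * s) + 1) ⊓ H = ⊥ := by
  rw [eq_bot_iff]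
  intro x hx
  obtain ⟨h1, h2⟩ := Subgroup.mem_inf.1 hx
  rw [mem_mu] at h1
  have h3 : x ^ (2 ^ (2 * s)) = x := by
    have : (2 : ℕ) ^ (2 * s) = 2 ^ s * 2 ^ s := by rw [← pow_add]; congr 1; ring
    rw [this, pow_mul, hH x h2, hH x h2]
  rw [pow_succ, h3] at h1
  rw [Subgroup.mem_bot]
  have h4 : (x : F) * x = 1 := by
    have := congrArg (fun z : Fˣ => (z : F)) h1
    simpa using this
  have h5 : (2 : F) = 0 := two_eq_zero'
  have h6 : ((x : F) - 1) ^ 2 = 0 := by linear_combination h4 - ((x : F) - 1) * h5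
  have h7 := pow_eq_zero_iff (two_ne_zero) |>.1 h6
  exact Units.ext (by simpa using sub_eq_zero.1 h7)

theorem card_sup_ge {G : Type} [CommGroup G] [Finite G] (H K : Subgroup G) (h : H ⊓ K = ⊥) :
    Nat.card H * Nat.card K ≤ Nat.card ↥(H ⊔ K) := by
  rw [← Nat.card_prod]
  have hinj := Subgroup.mul_injective_of_disjoint (disjoint_iff.2 h)
  refine Nat.card_le_card_of_injective
    (fun g : H × K => (⟨(g.1 : G) * g.2, Subgroup.mul_mem_sup g.1.2 g.2.2⟩ : ↥(H ⊔ K))) ?_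
  intro x y hxy
  exact hinj (congrArg Subtype.val hxy)

/-- The exponents of the orders. -/
def ee (a : ℕ) : ℕ → ℕ
  | 0 => 0
  | (i + 1) => 2 * (a * 4 ^ i) + ee a i

theorem ee_eq (a i : ℕ) : 3 * ee a i + 2 * a = 2 * (a * 4 ^ i) := by
  induction i with
  | zero => simp [ee]
  | succ i ih =>
    rw [ee, pow_succ]
    linarith

theorem card_mu [Finite F] {d : ℕ} (hd : d ∣ Nat.card Fˣ) : Nat.card (mu F d) = d := by
  unfold mu
  rw [IsCyclic.card_powMonoidHom_ker]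
  exact Nat.gcd_eq_right hd

theorem card_HH [CharP F 2] [Finite F] {a j : ℕ} (hF : Nat.card F = 2 ^ (a * 4 ^ j)) :
    ∀ i ≤ j, 2 ^ (ee a i) ≤ Nat.card (HH F a i) := by
  have hu : Nat.card Fˣ = 2 ^ (a * 4 ^ j) - 1 := by rw [Nat.card_units, hF]
  intro i
  induction i with
  | zero =>
    intro _
    rw [ee, pow_zero]
    exact Nat.card_pos
  | succ i ih =>
    intro hi
    have h1 := ih (by omega)
    have h2 := card_sup_ge (mu F (2 ^ (2 * (a * 4 ^ i)) + 1)) (HH F a i) (mu_inf (HH_fix a i))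
    have hd : (2 ^ (2 * (a * 4 ^ i)) + 1) ∣ Nat.card Fˣ := by
      rw [hu]
      have h3 : 2 ^ (a * 4 ^ (i + 1)) - 1 =
          (2 ^ (2 * (a * 4 ^ i)) + 1) * (2 ^ (2 * (a * 4 ^ i)) - 1) := by
        rw [← Nat.sq_sub_sq (2 ^ (2 * (a * 4 ^ i))) 1, one_pow, ← pow_mul]
        congr 2
        ring
      have h4 : 2 ^ (a * 4 ^ (i + 1)) - 1 ∣ 2 ^ (a * 4 ^ j) - 1 := by
        obtain ⟨k, rfl⟩ := Nat.exists_eq_add_of_le hi
        have := Nat.sub_dvd_pow_sub_pow (2 ^ (a * 4 ^ (i + 1))) 1 (4 ^ k)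
        rw [one_pow, ← pow_mul] at this
        convert this using 3
        ring
      exact (Dvd.intro _ h3.symm).trans h4
    rw [card_mu hd] at h2
    calc 2 ^ ee a (i + 1) = 2 ^ (2 * (a * 4 ^ i)) * 2 ^ ee a i := by rw [ee, pow_add]
      _ ≤ (2 ^ (2 * (a * 4 ^ i)) + 1) * Nat.card (HH F a i) := Nat.mul_le_mul (Nat.le_succ _) h1
      _ ≤ _ := h2

end Pool.Agent.H83.K4
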